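import Mathlib
import Pool.Agent.Lib.MP_1e09a3_nt.CF.Final73

/-!
# Integral functions and complete polynomial systems

Let `X_i' = P_i(X)`, `i = 1, …, N`, be a system of differential equations with `P_i ∈ ℤ[X]`
(constants, also transcendental ones, are treated as unknowns with derivative `0`), let `f` be a
solution and let `y` be an integral holomorphic function. Suppose that the old variable
`z = ζ(s)` is a nonconstant rational function of `f(s)` and that `y(ζ(s))` is algebraic over
`ℂ(f_1(s), …, f_N(s))`. If all solutions of the system are entire (more generally: if they are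
quotients of entire functions which depend continuously on the initial value, outside an algebraic
hypersurface that does not contain the solution `f`), then `y` is algebraic.

In particular this holds for towers of linear systems: `f_i' = B_i + ∑ A_ij f_j`, where the
coefficients `A_ij`, `B_i` are polynomials with arbitrary complex coefficients in the functions of
lower level.

Idea of the proof. By taking traces one may assume that `y(ζ(s))` is a rational function of `f`.
The functions `D^n y / n!`, `D = d/dz`, lie in a finitely generated ring, and after a retraction in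
a finitely generated subring of a finite extension `K` of `ℚ(f)`, and `K` is finite over
`ℚ(w_1, …, w_d)`. If `y` is not algebraic, the Wronskian `W` of the functions `z^i y^j`,
`i, j < L`, is not zero, and after multiplication by `g^(O(L^4))`, with a fixed polynomial
`g ∈ ℤ[w]`, it is integral over `ℤ[w]`; its norm is then a nonzero polynomial with integer
coefficients, so that it is not small on any polydisc of radius `1`. On the other hand the initial
values run through all points `σ(f)` above the polydisc, and as the solutions are entire the
Cauchy estimates on large discs show that `W` is small.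
-/

namespace Pool.Agent.Results.MP_1e09a3_nt.CompleteFlows

open Pool.Agent.Lib.MP_1e09a3_nt Pool.Agent.Lib.MP_1e09a3_nt.CF MvPolynomial

/-- An integral function `y` which is uniformized by the solutions of a polynomial system is
algebraic (1) if the flow of the system is meromorphic on `ℂ`, (2) if all solutions of the system
are entire, (3) if the system is a tower of linear systems with complex coefficients. -/
theorem result :
    (∀ (U : Set ℂ) (y : ℂ → ℂ), IsOpen U → IsPreconnected U → IsIntegralOn U y →
      ∀ (N : ℕ) (P : Fin N → MvPolynomial (Fin N) ℤ) (κ : MvPolynomial (Fin N) ℤ)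
        (E : Option (Fin N) → ℂ → (Fin N → ℂ) → ℂ), IsMeroFlow P κ E →
      ∀ (V : Set ℂ) (f : Fin N → ℂ → ℂ) (ζ : ℂ → ℂ), IsSolution V P f →
        (∃ s ∈ V, aeval (fun j => f j s) κ ≠ 0) → IsUniformizedBy U V f ζ y →
        IsAlgebraicOn U y) ∧
    (∀ (U : Set ℂ) (y : ℂ → ℂ), IsOpen U → IsPreconnected U → IsIntegralOn U y →
      ∀ (N : ℕ) (P : Fin N → MvPolynomial (Fin N) ℤ), IsComplete P →
      ∀ (V : Set ℂ) (f : Fin N → ℂ → ℂ) (ζ : ℂ → ℂ), IsSolution V P f →
        IsUniformizedBy U V f ζ y → IsAlgebraicOn U y) ∧
    (∀ (U : Set ℂ) (y : ℂ → ℂ), IsOpen U → IsPreconnected U → IsIntegralOn U y →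
      ∀ (N : ℕ) (level : Fin N → ℕ) (P : Fin N → MvPolynomial (Fin N) ℂ), IsTower level P →
      ∀ (V : Set ℂ) (f : Fin N → ℂ → ℂ) (ζ : ℂ → ℂ), IsSolutionC V P f →
        IsUniformizedBy U V f ζ y → IsAlgebraicOn U y) :=
  ⟨fun U y hU hc hy N P κ E hE V f ζ hf hκ h =>
      meroFlow_algebraic U y hU hc hy N P κ E hE V f ζ hf hκ h,
    fun U y hU hc hy N P hP V f ζ hf h => complete_algebraic U y hU hc hy N P hP V f ζ hf h,
    fun U y hU hc hy N level P hP V f ζ hf h =>
      tower_algebraic U y hU hc hy N level P hP V f ζ hf h⟩

end Pool.Agent.Results.MP_1e09a3_nt.CompleteFlows
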