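import Mathlib
import Pool.Agent.Lib.MP_1e09a3_nt.Final

/-!
# Integral functions given by exponential-polynomial systems are algebraic

Let `y` be an integral holomorphic function on a connected open set `U`, and suppose that on some
open subset of `U` the function `y` is one of the unknowns `f_1, …, f_n` of a system of `n`
equations `P_k(z, f_1, …, f_n, e^{f_1}, …, e^{f_n}) = 0` with complex coefficients whose Jacobian
determinant with respect to the unknowns does not vanish identically. Then `y` is algebraic.

Triangular systems of this kind give the elementary functions of Liouville (towers of algebraic
functions, exponentials and logarithms); other systems give implicitly defined functions such as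
the Lambert function.

Idea of the proof. Integrality implies that `y` lies in a finitely generated ring stable under
`D = d/dz` on which `D^p` is divisible by `p` for every prime `p`. Such elements form an
algebraically closed differential field `L` in the algebraic closure of the field of formal
Laurent series. The solution of the system is moved into `L` by a retraction (Nullstellensatz) that
fixes `z`, `y` and all the derivatives of `y`, and the defect from being horizontal satisfies linear
relations `D U = ∑ a_j D w_j / w_j` with `U, w_j ∈ L` and constants `a_j`. Comparing `p`-curvatures
for all primes `p`, together with a weak form of Kronecker's theorem (an element `b` of a finitely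
generated ring such that `b^p - b` is divisible by `p` for all primes `p` is rational), one gets
`D U = 0` and `∑ a_j E w_j / w_j = 0` for all derivations `E` of `L` trivial on constants. This
implies that every derivation of `L` over `ℂ(z)` kills `y`, so that `y` is algebraic.
-/

namespace Pool.Agent.Results.MP_1e09a3_nt.ExpAlgebraicSystems

open Pool.Agent.Lib.MP_1e09a3_nt

/-- An integral holomorphic function `y` on a connected open set `U` which on some open subset `V`
is a component of a solution of a nondegenerate exponential-polynomial system is algebraic. -/
theorem result (U : Set ℂ) (hU : IsOpen U) (hconn : IsPreconnected U) (y : ℂ → ℂ)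
    (hy : IsIntegralOn U y) (V : Set ℂ) (hV : IsOpen V) (hVU : V ⊆ U) (n : ℕ)
    (P : Fin n → MvPolynomial (Vars n) ℂ) (f : Fin n → ℂ → ℂ)
    (hf : IsExpSolution V P f) (i₀ : Fin n) (hyf : ∀ z ∈ V, y z = f i₀ z) :
    IsAlgebraicOn U y :=
  algebraic_of_integral U hU hconn y hy V hV hVU n P f hf i₀ hyf

end Pool.Agent.Results.MP_1e09a3_nt.ExpAlgebraicSystems
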