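import Mathlib
import Pool.Agent.Lib.MP_1e09a3_nt.FO.Final73

/-!
# Integral functions and nonlinear differential equations with bad singular points

Let `y` be an integral holomorphic function on a connected open set.

(1) If `A(z, y, …, y^(k)) y^(k+1) = B(z, y, …, y^(k))` and the vector field
`A ∂/∂X_0 + A X_2 ∂/∂X_1 + … + B ∂/∂X_(k+1)` has a zero whose linear part is bad (not nilpotent, and
not a multiple of a diagonalizable matrix with rational eigenvalues), then `y` satisfies a
differential equation of order at most `k`; for `k = 0` it is algebraic.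

(2) Let `u, v` be functions such that `z` and `y` are algebraic over `ℂ(u, v)` and
`A_0(u, v) v' = A_1(u, v) u'`. If the vector field `A` has a zero with a bad linear part, or if
`X_0 = 0` is an invariant line (`A_0 = X_0^m a`) and the form `a(0, Y) dY / A_1(0, Y)` has a nonzero
residue (`m ≥ 2`), or a multiple pole or an irrational residue (`m = 1`), then `y` is algebraic.

(3) If `y' = P(z, y)`, where `P` is a polynomial of degree at least two in `y` with constant leading
coefficient, then `y` is algebraic.

Idea of the proof. If `D = d/dz`, then `D^p` is divisible by `p` on a finitely generated ring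
containing all the functions. By Hochschild's formula the vector field `A` is `p`-closed after every
reduction to a field of characteristic `p`, if the functions are algebraically independent. At a
zero, the linear part `J` of a `p`-closed vector field satisfies that `J^p` is a multiple of `J`;
along an invariant line, `p`-closedness says that a form has a `p`-th iterate which is a multiple of
itself, so that it is exact, or logarithmic. Kronecker's theorem gives the rationality. In (3) one
uses the chart `u = 1/y`, `v = z + s/y^(d-1) + …` at infinity.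
-/

namespace Pool.Agent.Results.MP_1e09a3_nt.FirstOrderEquations

open Pool.Agent.Lib.MP_1e09a3_nt Pool.Agent.Lib.MP_1e09a3_nt.CF
  Pool.Agent.Lib.MP_1e09a3_nt.FO MvPolynomial

/-- (1) Equations of order `k + 1`, (2) equations of order one in algebraic coordinates `u, v`,
(3) the equations `y' = P(z, y)`. -/
theorem result :
    (∀ (U : Set ℂ) (y : ℂ → ℂ), IsOpen U → IsPreconnected U → IsIntegralOn U y →
      ∀ V : Set ℂ, IsOpen V → V.Nonempty → V ⊆ U →
      ∀ (k : ℕ) (A B : MvPolynomial (Fin (k + 2)) ℂ),
        (∀ z ∈ V, eval (fun j => jet k y j z) A * iteratedDeriv (k + 1) y z =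
          eval (fun j => jet k y j z) B) → BadPoint (odeField A B) →
        ∃ Q : MvPolynomial (Fin (k + 2)) ℂ, Q ≠ 0 ∧
          ∀ z ∈ U, eval (fun j => jet k y j z) Q = 0) ∧
    (∀ (U : Set ℂ) (y : ℂ → ℂ), IsOpen U → IsPreconnected U → IsIntegralOn U y →
      ∀ V : Set ℂ, IsOpen V → IsPreconnected V → V ⊆ U →
      ∀ u v : ℂ → ℂ, DifferentiableOn ℂ u V → DifferentiableOn ℂ v V →
        IsAlgebraicIn V ![u, v] (fun z => z) → IsAlgebraicIn V ![u, v] y →
      ∀ A : Fin 2 → MvPolynomial (Fin 2) ℂ,
        (∀ z ∈ V, eval ![u z, v z] (A 0) * deriv v z = eval ![u z, v z] (A 1) * deriv u z) →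
        BadPoint A ∨ BadLine A → IsAlgebraicOn U y) ∧
    (∀ (U : Set ℂ) (y : ℂ → ℂ), IsOpen U → IsPreconnected U → IsIntegralOn U y →
      ∀ V : Set ℂ, IsOpen V → V.Nonempty → V ⊆ U →
      ∀ P : Polynomial (Polynomial ℂ), 2 ≤ P.natDegree →
        (∃ c : ℂ, c ≠ 0 ∧ P.leadingCoeff = Polynomial.C c) →
        (∀ z ∈ V, deriv y z = (P.map (Polynomial.evalRingHom z)).eval (y z)) →
        IsAlgebraicOn U y) :=
  ⟨fun U y hU hc hy V hV hne hVU k A B hode hbad =>
      order_final U y hU hc hy V hV hne hVU k A B hode hbad,
    fun U y hU hc hy V hV hVc hVU u v hu hv hz hyalg A hrel hbad =>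
      chart_final U y hU hc hy V hV hVc hVU u v hu hv hz hyalg A hrel hbad,
    fun U y hU hc hy V hV hne hVU P hdeg hlead hode =>
      monic_final U y hU hc hy V hV hne hVU P hdeg hlead hode⟩

end Pool.Agent.Results.MP_1e09a3_nt.FirstOrderEquations
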