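import Mathlib
import Pool.Agent.Lib.MP_1e09a3_nt.FE.Final73

/-!
# Integral functions and Fourier expansions

Let `c ≠ 0` and let `f_i(z) = ∑ a_n e^(cnz)`, `i = 1, …, m`, be convergent for `|e^(cz)| < ρ`, with
coefficients in a finitely generated subring of `ℂ`. If an integral holomorphic function `y` is
algebraic over `ℂ(z, e^(cz), f_1(z), …, f_m(z))` on some open subset of its connected domain, then
`y` is algebraic; and a series `∑ a_n e^(cnz)` of this kind which is itself integral on some
nonempty open set is constant.

All modular forms and functions with integral (or algebraic, `S`-integral) coefficients,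
quasimodular forms, theta functions, mock theta functions, generating series of partitions, …,
are of this kind: the natural candidates for a transcendental integral function.

Idea of the proof. Let `K` be the field of quotients of polynomials in `z` with coefficients in the
ring of all these series; it is embedded in the field of Laurent series in `E = e^(cz)` over
`ℂ(z)`, and `D(b E^n) = (b' + c n b) E^n`. By taking traces one may assume `y ∈ K`. The functions
`D^n y / n!` lie in a finitely generated ring, which can be moved in a finite extension of `K`. For
a large prime `p` (in fact for every homomorphism of the ring of coefficients to a field of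
characteristic `p`) it follows that `D^p y` vanishes mod `p`. But the coefficient of `E^n` in
`D^p y` is `(c n)^p b` mod `p`, where `b` is the coefficient in `y`. So only the coefficient of
`E^0` can be different from zero: `y` is a rational function of `z`.
-/

namespace Pool.Agent.Results.MP_1e09a3_nt.FourierExpansions

open Pool.Agent.Lib.MP_1e09a3_nt Pool.Agent.Lib.MP_1e09a3_nt.CF
  Pool.Agent.Lib.MP_1e09a3_nt.FE

/-- (1) An integral function which is algebraic over the field generated by `z`, `e^(cz)` and the
series `∑ a_n e^(cnz)` with coefficients in finitely generated rings is algebraic. (2) Such a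
series which is an integral function on some nonempty open set is constant. -/
theorem result :
    (∀ (U : Set ℂ) (y : ℂ → ℂ), IsOpen U → IsPreconnected U → IsIntegralOn U y →
      ∀ (c : ℂ), c ≠ 0 → ∀ (ρ : ℝ), 0 < ρ → ∀ (m : ℕ) (G : Fin m → PowerSeries ℂ),
        (∀ i, Adm ρ (G i)) → ∀ V : Set ℂ, IsOpen V → V ⊆ U →
        (∀ z ∈ V, ‖Complex.exp (c * z)‖ < ρ) → IsAlgebraicIn V (expFun c G) y →
        IsAlgebraicOn U y) ∧
    (∀ (c : ℂ), c ≠ 0 → ∀ (ρ : ℝ), 0 < ρ → ∀ G : PowerSeries ℂ, Adm ρ G →
      ∀ V : Set ℂ, IsOpen V → V.Nonempty → (∀ z ∈ V, ‖Complex.exp (c * z)‖ < ρ) →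
        IsIntegralOn V (evE c G) → ∀ n, n ≠ 0 → PowerSeries.coeff n G = 0) :=
  ⟨fun U y hU hconn hy c hc ρ hρ m G hG V hV hVU hVρ halg =>
      fourier_algebraic U y hU hconn hy c hc ρ hρ m G hG V hV hVU hVρ halg,
    fun c hc ρ hρ G hG V hV hne hVρ hint =>
      fourier_const c hc ρ hρ G hG V hV hne hVρ hint⟩

end Pool.Agent.Results.MP_1e09a3_nt.FourierExpansions
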